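import Pool.Agent.Lib.MP_4a5b11_an.Cert

open Pool.Agent.Lib.MP_4a5b11_an

/-- The ordinate `1901 / 74898` has a countably infinite level set, and it is not the value of
the Takagi function at any dyadic rational of the unit interval. -/
theorem Pool.Agent.Results.MP_4a5b11_an.NonDyadicLevel.result :
    (1901 / 74898 : ℝ) ∈ Sco ∧
      ∀ m k : ℕ, k ≤ 2 ^ m → takagi ((k : ℝ) / 2 ^ m) ≠ (1901 / 74898 : ℝ) := by
  refine ⟨⟨⟨by norm_num, by norm_num⟩, level_countable, level_infinite⟩, fun m k _ => ?_⟩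
  simpa using not_dyadic m (k : ℤ)
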